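import Mathlib

set_option autoImplicit false

namespace Pool.Agent.Results.MP_d888c7_an.NoBVSolution

open Set Filter Topology MeasureTheory

/-- The class Omega of weights on [0,1]. -/
structure InOmega (ω : ℝ → ℝ) : Prop where
  cont : ContinuousOn ω (Icc 0 1)
  pos : ∀ x ∈ Icc (0 : ℝ) 1, 0 < ω x
  zero : ω 0 = 1
  integrable : IntegrableOn ω (Icc 0 1)
  dini : IntegrableOn (fun x => |1 - ω x| * x⁻¹) (Ioc 0 1)

/-- The sequence lambda_0 = 1, lambda_n = ratio of the weighted moments. -/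
noncomputable def lam (ω₁ ω₂ : ℝ → ℝ) (n : ℕ) : ℝ :=
  if n = 0 then 1
  else (∫ x in (0 : ℝ)..1, ω₁ x * x ^ (n - 1)) * (∫ x in (0 : ℝ)..1, ω₂ x * x ^ (n - 1))⁻¹

/-- The Riemann-Stieltjes integral of f against β over [0,1] exists and equals I: the tagged sums
tend to I as the mesh of the partition 0 = x_0 ≤ ... ≤ x_N = 1 tends to 0. -/
def HasRS (f β : ℝ → ℝ) (I : ℝ) : Prop :=
  ∀ ε > 0, ∃ δ > 0, ∀ (N : ℕ) (x ξ : ℕ → ℝ), x 0 = 0 → x N = 1 →
    (∀ i < N, x i ≤ ξ i ∧ ξ i ≤ x (i + 1) ∧ x (i + 1) - x i < δ) →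
    |∑ i ∈ Finset.range N, f (ξ i) * (β (x (i + 1)) - β (x i)) - I| < ε

/-- Sums over uniform partitions with left tags. -/
noncomputable def S (β f : ℝ → ℝ) (N : ℕ) : ℝ :=
  ∑ i ∈ Finset.range N, f (i / N) * (β (((i + 1 : ℕ) : ℝ) / N) - β (i / N))

lemma tendsto_S {f β : ℝ → ℝ} {I : ℝ} (h : HasRS f β I) : Tendsto (S β f) atTop (𝓝 I) := by
  rw [Metric.tendsto_atTop]
  intro ε hε
  obtain ⟨δ, hδ, H⟩ := h ε hε
  obtain ⟨M, hM⟩ := exists_nat_one_div_lt hδ
  refine ⟨M + 1, fun N hN => ?_⟩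
  have hN0 : (0 : ℝ) < N := by exact_mod_cast (by omega : 0 < N)
  have hN1 : ((M : ℝ) + 1) ≤ N := by exact_mod_cast hN
  rw [Real.dist_eq]
  refine H N (fun i => i / N) (fun i => i / N) (by simp) (by field_simp) ?_
  intro i _
  refine ⟨le_rfl, by push_cast; gcongr; linarith, ?_⟩
  have : ((i + 1 : ℕ) : ℝ) / N - i / N = 1 / N := by push_cast; ring
  rw [this]
  calc (1 : ℝ) / N ≤ 1 / (M + 1) := by gcongr
    _ < δ := hM

lemma abs_S_le {β : ℝ → ℝ} (hβ : BoundedVariationOn β (Icc 0 1)) (f : ℝ → ℝ) (M : ℝ)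
    (hM : 0 ≤ M) (hf : ∀ x ∈ Icc (0 : ℝ) 1, |f x| ≤ M) (N : ℕ) (hN : 0 < N) :
    |S β f N| ≤ M * (eVariationOn β (Icc 0 1)).toReal := by
  have hN0 : (0 : ℝ) < N := by exact_mod_cast hN
  have hmem : ∀ i : ℕ, i ≤ N → ((i : ℝ) / N) ∈ Icc (0 : ℝ) 1 := by
    intro i hi
    refine ⟨by positivity, ?_⟩
    rw [div_le_one hN0]; exact_mod_cast hi
  have h1 := eVariationOn.sum_le_of_monotoneOn_Iic (f := β) (s := Icc 0 1) (n := N)
    (u := fun i : ℕ => (i : ℝ) / N) (fun i _ j _ hij => by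
      have : (i : ℝ) ≤ j := by exact_mod_cast hij
      simp only; gcongr) hmem
  have h2 : ∑ i ∈ Finset.range N, |β (((i + 1 : ℕ) : ℝ) / N) - β (i / N)|
      ≤ (eVariationOn β (Icc 0 1)).toReal := by
    have h3 := ENNReal.toReal_mono hβ h1
    rw [ENNReal.toReal_sum (fun i _ => edist_ne_top _ _)] at h3
    simpa [edist_dist, Real.dist_eq] using h3
  calc |S β f N| ≤ ∑ i ∈ Finset.range N, |f (i / N) * (β (((i + 1 : ℕ) : ℝ) / N) - β (i / N))| :=
        Finset.abs_sum_le_sum_abs _ _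
    _ ≤ ∑ i ∈ Finset.range N, M * |β (((i + 1 : ℕ) : ℝ) / N) - β (i / N)| := by
        apply Finset.sum_le_sum
        intro i hi
        rw [abs_mul]
        gcongr
        exact hf _ (hmem i (Finset.mem_range.1 hi).le)
    _ ≤ _ := by rw [← Finset.mul_sum]; gcongr

/-- Iterated differences. -/
def dd (u : ℕ → ℝ) : ℕ → ℕ → ℝ
  | 0, j => u j
  | m + 1, j => dd u m j - dd u m (j + 1)

lemma dd_succ (u : ℕ → ℝ) (m j : ℕ) : dd u (m + 1) j = dd u m j - dd u m (j + 1) := rfl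

lemma tendsto_dd {β : ℝ → ℝ} {u : ℕ → ℝ} (h : ∀ n, HasRS (fun x => x ^ n) β (u n)) (m : ℕ) :
    ∀ j, Tendsto (S β (fun x => x ^ j * (1 - x) ^ m)) atTop (𝓝 (dd u m j)) := by
  induction m with
  | zero => intro j; simpa [dd] using tendsto_S (h j)
  | succ m ih =>
    intro j
    refine ((ih j).sub (ih (j + 1))).congr (fun N => ?_)
    simp only [S, ← Finset.sum_sub_distrib]
    apply Finset.sum_congr rfl
    intro i _; ring

lemma bern_le (m j : ℕ) (x : ℝ) (hx : x ∈ Icc (0 : ℝ) 1) :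
    x ^ j * (1 - x) ^ m * ((j + m).choose j : ℝ) ≤ 1 := by
  have h0 := hx.1
  have h1 : 0 ≤ 1 - x := by linarith [hx.2]
  have h := add_pow x (1 - x) (j + m)
  rw [add_sub_cancel, one_pow] at h
  have := Finset.single_le_sum (s := Finset.range (j + m + 1))
    (f := fun k => x ^ k * (1 - x) ^ (j + m - k) * ((j + m).choose k : ℝ))
    (fun k _ => by positivity) (a := j) (Finset.mem_range.2 (by omega))
  rw [← h] at this
  simpa using this

lemma dd_bound {β : ℝ → ℝ} (hβ : BoundedVariationOn β (Icc 0 1)) {u : ℕ → ℝ}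
    (h : ∀ n, HasRS (fun x => x ^ n) β (u n)) (m j : ℕ) :
    |dd u m j| * ((j + m).choose j : ℝ) ≤ (eVariationOn β (Icc 0 1)).toReal := by
  have hc : (0 : ℝ) < ((j + m).choose j : ℝ) := by
    exact_mod_cast Nat.choose_pos (by omega)
  rw [← le_div_iff₀ hc]
  refine le_of_tendsto (tendsto_dd h m j).abs ?_
  filter_upwards [eventually_gt_atTop 0] with N hN
  have := abs_S_le hβ (fun x => x ^ j * (1 - x) ^ m) (1 / ((j + m).choose j : ℝ))
    (by positivity) (fun x hx => by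
      have h0 := hx.1
      have h1 : 0 ≤ 1 - x := by linarith [hx.2]
      rw [abs_of_nonneg (by positivity), le_div_iff₀ hc]
      exact bern_le m j x hx) N hN
  refine this.trans (le_of_eq ?_)
  ring

lemma dd_lin (u v w : ℕ → ℝ) (a b : ℝ) (h : ∀ k, w k = a * u k + b * v k) (m : ℕ) :
    ∀ j, dd w m j = a * dd u m j + b * dd v m j := by
  induction m with
  | zero => intro j; simp [dd, h]
  | succ m ih => intro j; simp only [dd, ih]; ring

lemma dd_const (c : ℝ) (m : ℕ) : ∀ j, dd (fun _ => c) (m + 1) j = 0 := by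
  induction m with
  | zero => intro j; simp [dd]
  | succ m ih => intro j; rw [dd, ih, ih, sub_zero]

lemma dd_T (u : ℕ → ℝ) (m : ℕ) :
    ∀ j, dd (fun k => k * u k) (m + 1) j = j * dd u (m + 1) j - (m + 1) * dd u m (j + 1) := by
  induction m with
  | zero => intro j; simp only [dd]; push_cast; ring
  | succ m ih =>
    intro j
    rw [dd_succ, ih, ih, dd_succ u (m + 1) j, dd_succ u m (j + 1)]
    push_cast; ring

/-- The analytic core: 1/2 + 108 / ((k+8)(k^2-2k+27)) violates the Hausdorff bounds. -/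
lemma core (u : ℕ → ℝ) (hu : ∀ k : ℕ, u k = 1 / 2 + 108 / ((k + 8) * (k ^ 2 - 2 * k + 27))) (V : ℝ)
    (hV : ∀ m j, |dd u m j| * ((j + m).choose j : ℝ) ≤ V) : False := by
  have hq : ∀ k : ℕ, (0 : ℝ) < k ^ 2 - 2 * k + 27 := fun k => by nlinarith [sq_nonneg ((k : ℝ) - 1)]
  set g : ℕ → ℝ := fun k => 108 / ((k + 8) * (k ^ 2 - 2 * k + 27)) with hg
  set e : ℕ → ℝ := fun k => 108 / (k ^ 2 - 2 * k + 27) with he
  set f : ℕ → ℝ := fun k => k * e k with hf
  have hgu : ∀ m j, dd g (m + 1) j = dd u (m + 1) j := by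
    intro m j
    rw [dd_lin g (fun _ => 1) u 1 (1 / 2) (fun k => by rw [hu]; simp only [hg]; ring), dd_const]
    ring
  have heg : ∀ m j, dd e m j = 8 * dd g m j + 1 * dd (fun k => k * g k) m j := by
    intro m
    refine dd_lin _ _ _ _ _ (fun k => ?_) m
    have := hq k
    simp only [he, hg]; field_simp; ring
  have hV0 : ∀ m, |dd g (m + 1) 0| ≤ V := by
    intro m; rw [hgu]; simpa using hV (m + 1) 0
  have hV1 : ∀ m : ℕ, |((m : ℝ) + 2) * dd g (m + 1) 1| ≤ V := by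
    intro m; rw [hgu, abs_mul, abs_of_pos (by positivity : (0 : ℝ) < (m : ℝ) + 2), mul_comm]
    have := hV (m + 1) 1
    rw [Nat.choose_one_right] at this
    push_cast at this
    convert this using 2; ring
  have hV2 : ∀ m : ℕ, |((m : ℝ) + 3) * ((m : ℝ) + 2) * dd g (m + 1) 2| ≤ 2 * V := by
    intro m; rw [hgu, abs_mul, abs_of_pos (by positivity : (0 : ℝ) < ((m : ℝ) + 3) * ((m : ℝ) + 2))]
    have := hV (m + 1) 2
    rw [Nat.cast_choose_two] at this
    push_cast at this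
    nlinarith
  have hE : ∀ m, |dd e (m + 2) 0| ≤ 9 * V := by
    intro m
    rw [heg, dd_T]
    have a := abs_le.1 (hV0 (m + 1))
    have b := abs_le.1 (hV1 m)
    push_cast
    rw [abs_le]; constructor <;> nlinarith
  have hF : ∀ m, |dd f (m + 3) 0| ≤ 11 * V := by
    intro m
    rw [hf, dd_T, heg (m + 2) (0 + 1), dd_T]
    have a := abs_le.1 (hV1 (m + 1))
    have b := abs_le.1 (hV2 m)
    push_cast at a b ⊢
    rw [abs_le]; constructor <;> nlinarith
  have r1 : ∀ m : ℕ, ((m : ℝ) + 1) * dd e m 0 = (m + 1) * dd e (m + 1) 0 - dd f (m + 1) 0 := by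
    intro m
    rw [hf, dd_T, dd_succ e m 0]; push_cast; ring
  have r2 : ∀ m : ℕ, ((m : ℝ) + 1) * dd f m 0
      = (m + 1) * dd f (m + 1) 0 - 2 * dd f (m + 1) 0 + 27 * dd e (m + 1) 0 := by
    intro m
    have h1 := dd_T f m 0
    have h2 := dd_lin (fun k => k * f k) f (fun k => k * f k - 2 * f k) 1 (-2)
      (fun k => by ring) (m + 1) 0
    have h3 := dd_lin (fun k => k * f k - 2 * f k) e (fun _ => 108) 1 27 (fun k => by
      have := hq k
      have h9 : (108 : ℝ) = 108 / (k ^ 2 - 2 * k + 27) * (k ^ 2 - 2 * k + 27) :=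
        (div_mul_cancel₀ _ this.ne').symm
      simp only [hf, he]; linarith) (m + 1) 0
    rw [dd_const] at h3
    have h4 := dd_succ f m 0
    push_cast at h1 h4
    linear_combination h3 + h2 + h1 - ((m : ℝ) + 1) * h4
  set Nn : ℕ → ℝ := fun m => (dd f m 0 - dd e m 0) ^ 2 + 26 * dd e m 0 ^ 2 with hN
  have r3 : ∀ m : ℕ, ((m : ℝ) ^ 2 + 26) * Nn (m + 1) = (m + 1) ^ 2 * Nn m := by
    intro m
    have : ((m : ℝ) + 1) ^ 2 * Nn m = ((m + 1) * dd f m 0 - (m + 1) * dd e m 0) ^ 2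
        + 26 * ((m + 1) * dd e m 0) ^ 2 := by simp only [hN]; ring
    rw [this, r1, r2]; simp only [hN]; ring
  have hpos : ∀ m, 0 < Nn m := by
    intro m
    induction m with
    | zero => simp only [hN, dd, hf, he]; norm_num
    | succ m ih =>
      have h1 := r3 m
      have h2 : 0 < ((m : ℝ) + 1) ^ 2 * Nn m := by positivity
      rw [← h1] at h2
      exact (mul_pos_iff_of_pos_left (by positivity)).1 h2
  have hgrow : ∀ m : ℕ, Nn 26 * (m + 26) ≤ 26 * Nn (m + 26) := by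
    intro m
    induction m with
    | zero => simp [mul_comm]
    | succ m ih =>
      have h1 := r3 (m + 26)
      have h2 := hpos (m + 26)
      have h3 := hpos (m + 26 + 1)
      have h4 := hpos 26
      rw [show m + 1 + 26 = m + 26 + 1 by ring]
      push_cast at h1 ⊢
      have hm : (0 : ℝ) ≤ m := by positivity
      have h5 : ((m : ℝ) + 27) * Nn (m + 26) ≤ (m + 26) * Nn (m + 26 + 1) := by
        have h6 : ((m : ℝ) + 27) * (((m : ℝ) + 27) * Nn (m + 26))
            ≤ ((m : ℝ) + 27) * ((m + 26) * Nn (m + 26 + 1)) := by nlinarith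
        exact le_of_mul_le_mul_left h6 (by positivity)
      have h7 : ((m : ℝ) + 26) * (Nn 26 * (m + 1 + 26)) ≤ ((m : ℝ) + 26) * (26 * Nn (m + 26 + 1)) := by
        nlinarith
      exact le_of_mul_le_mul_left h7 (by positivity)
  have hbd : ∀ m : ℕ, Nn (m + 26) ≤ (20 * V) ^ 2 + 26 * (9 * V) ^ 2 := by
    intro m
    have a := abs_le.1 (hE (m + 24))
    have b := abs_le.1 (hF (m + 23))
    simp only [hN]
    have c : (dd f (m + 26) 0 - dd e (m + 26) 0) ^ 2 ≤ (20 * V) ^ 2 :=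
      sq_le_sq' (by linarith [a.1, a.2, b.1, b.2]) (by linarith [a.1, a.2, b.1, b.2])
    have d : (dd e (m + 26) 0) ^ 2 ≤ (9 * V) ^ 2 := sq_le_sq' a.1 a.2
    linarith
  obtain ⟨m, hm⟩ := exists_nat_gt (26 * ((20 * V) ^ 2 + 26 * (9 * V) ^ 2) / Nn 26)
  rw [div_lt_iff₀ (hpos 26)] at hm
  have := hgrow m
  have := hbd m
  have := hpos 26
  nlinarith

/-- The weights a + (1 - a) (1 - x)^3. -/
noncomputable def w (a : ℝ) (x : ℝ) : ℝ := a + (1 - a) * (1 - x) ^ 3

lemma w_omega (a : ℝ) (h0 : 0 < a) (h1 : a < 1) : InOmega (w a) := by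
  have hc : Continuous (w a) := by unfold w; fun_prop
  refine ⟨hc.continuousOn, fun x hx => ?_, by simp [w], hc.continuousOn.integrableOn_Icc, ?_⟩
  · have : 0 ≤ 1 - x := by linarith [hx.2]
    have : 0 < 1 - a := by linarith
    unfold w; positivity
  · have hc2 : Continuous (fun x : ℝ => |(1 - a) * (3 - 3 * x + x ^ 2)|) := by fun_prop
    refine (hc2.continuousOn.integrableOn_Icc.mono_set Ioc_subset_Icc_self).congr_fun ?_
      measurableSet_Ioc
    intro x hx
    have hx0 : 0 < x := hx.1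
    have : 1 - w a x = (1 - a) * (3 - 3 * x + x ^ 2) * x := by unfold w; ring
    simp only [this]
    rw [abs_mul _ x, abs_of_pos hx0]; field_simp

lemma w_anti (a : ℝ) (h1 : a < 1) : AntitoneOn (w a) (Icc 0 1) := by
  intro x _ y hy hxy
  have : 0 ≤ 1 - y := by linarith [hy.2]
  have : 0 ≤ 1 - a := by linarith
  unfold w; gcongr

lemma w_int (a : ℝ) (n : ℕ) : ∫ x in (0 : ℝ)..1, w a x * x ^ n
    = (a * ((n + 2) * (n + 3) * (n + 4)) + 6 * (1 - a)) / ((n + 1) * (n + 2) * (n + 3) * (n + 4)) := by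
  have : ∀ x : ℝ, w a x * x ^ n = x ^ n - 3 * (1 - a) * x ^ (n + 1) + 3 * (1 - a) * x ^ (n + 2)
      - (1 - a) * x ^ (n + 3) := by intro x; unfold w; ring
  simp only [this]
  rw [intervalIntegral.integral_sub, intervalIntegral.integral_add, intervalIntegral.integral_sub]
  · simp only [intervalIntegral.integral_const_mul, integral_pow]
    push_cast
    simp only [one_pow, ne_eq, Nat.add_eq_zero_iff, one_ne_zero, and_false, not_false_eq_true,
      zero_pow, sub_zero]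
    field_simp; ring
  all_goals exact Continuous.intervalIntegrable (by fun_prop) _ _

theorem result :
    ∃ ω₁ ω₂ : ℝ → ℝ, InOmega ω₁ ∧ InOmega ω₂ ∧
      (MonotoneOn ω₁ (Icc 0 1) ∨ AntitoneOn ω₁ (Icc 0 1)) ∧
      (MonotoneOn ω₂ (Icc 0 1) ∨ AntitoneOn ω₂ (Icc 0 1)) ∧
      AntitoneOn (fun x => ω₁ x / ω₂ x) (Icc 0 1) ∧
      ¬ ∃ β : ℝ → ℝ, (MonotoneOn β (Icc 0 1) ∨ BoundedVariationOn β (Icc 0 1)) ∧
        ∀ n : ℕ, HasRS (fun x => x ^ n) β (lam ω₁ ω₂ n) := by
  refine ⟨w (1 / 72), w (1 / 36), w_omega _ (by norm_num) (by norm_num),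
    w_omega _ (by norm_num) (by norm_num), Or.inr (w_anti _ (by norm_num)),
    Or.inr (w_anti _ (by norm_num)), ?_, ?_⟩
  · intro x hx y hy hxy
    have h1 := (w_omega (1 / 36) (by norm_num) (by norm_num)).pos x hx
    have h2 := (w_omega (1 / 36) (by norm_num) (by norm_num)).pos y hy
    simp only
    rw [div_le_div_iff₀ h2 h1]
    have : 0 ≤ 1 - y := by linarith [hy.2]
    have h3 : (1 - y) ^ 3 ≤ (1 - x) ^ 3 := by gcongr
    unfold w; nlinarith
  · rintro ⟨β, hβ, h⟩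
    have hβ' : BoundedVariationOn β (Icc 0 1) := by
      rcases hβ with hβ | hβ
      · have := hβ.eVariationOn_eq (a := 0) (b := 1) (by simp) (by simp)
        rw [inter_self] at this
        exact (this.trans_lt ENNReal.ofReal_lt_top).ne
      · exact hβ
    refine core _ (fun k => ?_) _ (dd_bound hβ' h)
    cases k with
    | zero => simp [lam]; norm_num
    | succ k =>
      have hq : (0 : ℝ) < (k + 1) ^ 2 - 2 * (k + 1) + 27 := by nlinarith [sq_nonneg (k : ℝ)]
      simp only [lam, Nat.add_eq_zero_iff, one_ne_zero, and_false, if_false, Nat.add_sub_cancel,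
        w_int]
      push_cast
      have h2 : (1 / 36 * (((k : ℝ) + 2) * (k + 3) * (k + 4)) + 6 * (1 - 1 / 36))
          = 1 / 36 * ((k + 1 + 8) * ((k + 1) ^ 2 - 2 * (k + 1) + 27)) := by ring
      have h3 : (1 / 72 * (((k : ℝ) + 2) * (k + 3) * (k + 4)) + 6 * (1 - 1 / 72))
          = 1 / 72 * ((k + 1 + 8) * ((k + 1) ^ 2 - 2 * (k + 1) + 27) + 216) := by ring
      rw [h2, h3]
      generalize ((k : ℝ) + 1) ^ 2 - 2 * (k + 1) + 27 = Q at hq ⊢
      field_simp; ring

end Pool.Agent.Results.MP_d888c7_an.NoBVSolution
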